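import Pool.Agent.Helper56.TH.Core
import Pool.Agent.Helper85.TH.OfRCA
import Pool.Agent.Helper17.TH.Bridge
import Pool.Agent.Helper35.TH.LP
import Pool.Agent.Helper24.TH.SigmaFinal

/-!
# MP_6f1bc5_lc, full answer to Q1: the thin version of Hindman's theorem implies `ACA₀`

`result`: every structure for second-order arithmetic that satisfies `RCA₀` and thin-HT satisfies
`ACA₀`.  By the completeness theorem this is exactly the statement that thin-HT implies `ACA₀`
over `RCA₀`.  The definitions are in `Pool/Agent/Helper56/TH/Defs.lean`.

Idea of the proof.  For a sequence of numbers that is not known to stabilise one chooses a weight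
function `Q` on pairs of consecutive binary exponents, and colours `n` by the number of factors
`2` in `⌊V(n) / 2 ^ t⌋`, where `V(n)` is the sum of the weights over the consecutive binary
exponents of `n`.  If a colour is missing on the finite sums of an infinite set, then toggling the
middle elements of disjoint triples of blocks shows that the weights satisfy an exact arithmetic
law (`Export`), since otherwise all values, hence all colours, would be realised.  A first use
(weights = running minima) proves that bounded functions have least limit points, which replaces
the missing `Σ⁰₂` induction; a second use (weights = short gap indicators) decides a `Σ⁰₁` set.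
-/

universe u

namespace Pool.Agent.Results.MP_6f1bc5_lc.ThinHindman

open Pool.Agent.Helper56.TH

theorem result : ∀ A : L2.{u}, RCA0 A → ThinHT A → ACA0 A := by
  intro A hA hT
  obtain ⟨_, _, _, _, hadd, hmul, h0, h1, hlt, h⟩ := exists_frame A hA
  have hF : ThinF A.sets := thinF_of_thinHT A hadd hmul h0 h1 hlt h hT
  have hE : Export A.sets := export_of_thin h hF
  have hL : LP A.sets := lp_of_export h hE
  exact aca_of_sigmaCA A hA.basic hadd hmul h0 h1 hlt h (sigmaCA_of_export h hE hL)

end Pool.Agent.Results.MP_6f1bc5_lc.ThinHindman
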